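import Pool.Agent.helper58.FI4E.Spec

/-!
# FI4E, row OMX: Knörr-Robinson for `a = X.proj e`
-/

set_option autoImplicit false

namespace Pool.Agent.FI4E

open Pool.Agent.helper58.DC Pool.Agent.DI Pool.Agent.GR Pool.Agent.OB Pool.Agent.DR Pool.Agent.FI Pool.Agent.FI3 Pool.Agent.FI4 Pool.Agent.FI4I

open Classical in
theorem OMX_split {α : Type} (P Q : α → Prop) (f : α → ℂ) :
    ∑ᶠ C ∈ {C : α | P C ∧ Q C}, f C = ∑ᶠ C ∈ {C : α | P C}, (if Q C then f C else 0) := by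
  refine finsum_congr fun C => ?_
  by_cases hP : P C
  · by_cases hQ : Q C
    · have h1 : C ∈ {C : α | P C ∧ Q C} := ⟨hP, hQ⟩
      have h2 : C ∈ {C : α | P C} := hP
      rw [finsum_eq_if, finsum_eq_if, if_pos h1, if_pos h2, if_pos hQ]
    · have h1 : ¬ C ∈ {C : α | P C ∧ Q C} := fun h => hQ h.2
      have h2 : C ∈ {C : α | P C} := hP
      rw [finsum_eq_if, finsum_eq_if, if_neg h1, if_pos h2, if_neg hQ]
  · have h1 : ¬ C ∈ {C : α | P C ∧ Q C} := fun h => hP h.1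
    have h2 : ¬ C ∈ {C : α | P C} := hP
    rw [finsum_eq_if, finsum_eq_if, if_neg h1, if_neg h2]

theorem OMX_act {G E A : Type} [Group G] [Group E] [Group A] (X : Extension G E A) (e₀ : E) (g : G) :
    X.act (X.inc g * e₀) = al (X.act e₀) g := by
  have h : X.act (X.inc g) = MulAut.conj g := by
    refine MulEquiv.ext fun x => ?_
    apply X.inc_injective
    rw [X.act_spec, MulAut.conj_apply, map_mul, map_mul, map_inv]
  rw [map_mul, h]
  rfl

theorem OMX (hMA1 : MA1_stmt) (hTOT : TOT_stmt) (hFNC : FNC_stmt) (hOMB : OMB_stmt) (hTAU : TAU_stmt) : OMX_stmt := by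
  classical
  intro p M hS G E A _ _ _ _ _ X hOp χ hχ e₀
  have : Fact p.Prime := ⟨hS.pr⟩
  have h1 := hMA1 p M hS G E A X hOp χ hχ (X.proj e₀) (RingEquiv.refl ℂ) (fun _ _ _ => rfl)
  rw [hTOT G E A X p M χ (X.proj e₀)] at h1
  rw [h1]
  obtain ⟨hbij, hC⟩ := hOMB p G E A X
  -- one element `e`
  have h2 : ∀ e : E, ∑ᶠ C ∈ {C : Finset (Subgroup E) | PCh p X.inc.range ⊥ C ∧ e ∈ nrm C},
      (-1 : ℂ) ^ (C.card + 1) * tau p M χ ((nrm C).comap X.inc) (X.act e) =
      ∑ᶠ C ∈ {C : Finset (Subgroup G) | NCh p ⊤ ⊥ C ∧ FxC (X.act e) C},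
        (-1 : ℂ) ^ (C.card + 1) * tL p M χ (nrm C) (X.act e) := by
    intro e
    have h3 := hFNC E p X.inc.range ⊥ ⊤
      (fun K => if e ∈ K then tau p M χ (K.comap X.inc) (X.act e) else 0) IsPGroup.of_bot bot_le
    have h4 : ∑ᶠ C ∈ {C : Finset (Subgroup E) | PCh p X.inc.range ⊥ C ∧ e ∈ nrm C},
        (-1 : ℂ) ^ (C.card + 1) * tau p M χ ((nrm C).comap X.inc) (X.act e) =
        ∑ᶠ C ∈ {C : Finset (Subgroup E) | PCh p X.inc.range ⊥ C}, (-1 : ℂ) ^ (C.card + 1) *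
          (fun K : Subgroup E => if e ∈ K then tau p M χ (K.comap X.inc) (X.act e) else 0) (⊤ ⊓ nrm C) := by
      rw [OMX_split]
      refine finsum_mem_congr rfl fun C _ => ?_
      simp only [top_inf_eq]
      by_cases h : e ∈ nrm C
      · rw [if_pos h, if_pos h]
      · rw [if_neg h, if_neg h, mul_zero]
    rw [h4, h3, OMX_split]
    symm
    refine finsum_mem_eq_of_bijOn (cmap X.inc) hbij fun C _ => ?_
    obtain ⟨c1, c2, c3⟩ := hC C
    simp only [top_inf_eq]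
    rw [c1, c2]
    by_cases h : FxC (X.act e) C
    · rw [if_pos h, if_pos ((c3 e).2 h), hTAU p M G χ (nrm C) (X.act e)]
    · rw [if_neg h, if_neg (fun h' => h ((c3 e).1 h')), mul_zero]
  rw [finsum_mem_congr rfl fun e _ => h2 e]
  -- the elements over `X.proj e₀`
  have h5 : Set.BijOn (fun g : G => X.inc g * e₀) Set.univ {e : E | X.proj e = X.proj e₀} := by
    refine ⟨fun g _ => ?_, fun g _ g' _ h => ?_, fun e he => ?_⟩
    · show X.proj (X.inc g * e₀) = X.proj e₀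
      rw [map_mul, (X.exact (X.inc g)).2 ⟨g, rfl⟩, one_mul]
    · exact X.inc_injective (mul_right_cancel h)
    · have h6 : X.proj (e * e₀⁻¹) = 1 := by
        rw [map_mul, map_inv, (show X.proj e = X.proj e₀ from he), mul_inv_cancel]
      obtain ⟨g, hg⟩ := (X.exact _).1 h6
      refine ⟨g, Set.mem_univ _, ?_⟩
      show X.inc g * e₀ = e
      rw [hg, inv_mul_cancel_right]
  rw [← finsum_mem_eq_of_bijOn (f := fun g : G => ∑ᶠ C ∈ {C : Finset (Subgroup G) | NCh p ⊤ ⊥ C ∧ FxC (al (X.act e₀) g) C},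
        (-1 : ℂ) ^ (C.card + 1) * tL p M χ (nrm C) (al (X.act e₀) g)) (fun g : G => X.inc g * e₀) h5
      (fun g _ => by rw [← OMX_act]), finsum_mem_univ]
  rfl

end Pool.Agent.FI4E
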